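import Pool.Agent.Y958.HP.Base

/-!
# The variant of the Hopf lemma fails for every trace which does not vanish near the origin

The counterexample of the starting file `HopfVariantFails` belongs to a large class. Every smooth
`v ≥ 0` with `v(0,0) = 0` which does not increase in `t`, and for which `σ_m` is the same (or not
smaller) along segments on which `v` is constant in `t`, is the function `v` of a counterexample,
if it does not vanish near the origin. In particular every admissible trace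
`a(y) = u(0,y) = v(0,y)` which is not identically zero near the origin occurs.

All definitions are those of the starting file.
-/

set_option autoImplicit false
open Set Filter Topology
open scoped ContDiff

namespace Pool.Agent.Results.MP_4ba699_an.EveryTrace

open Pool.Agent.Results.MP_4ba699_an.HopfVariantFails Pool.Agent.Y958.HP

/-- the function `u(t,y) = v(-t,y) + E(t)` -/
noncomputable def uOf {d : ℕ} (v : Pt d → ℝ) (p : Pt d) : ℝ := v (-p.1, p.2) + EE p.1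

/-- the assumptions on `v` -/
structure Good {d : ℕ} (v : Pt d → ℝ) (O : Set (Pt d)) : Prop where
  op : IsOpen O
  sub : ∀ p : Pt d, |p.1| ≤ 1 → ‖p.2‖ ≤ 1 → p ∈ O
  smooth : ContDiffOn ℝ ∞ v O
  nn : ∀ p ∈ Omega d, 0 ≤ v p
  z : v (0, 0) = 0
  dec : ∀ p : Pt d, |p.1| ≤ 1 → ‖p.2‖ < 1 → pd 0 v p ≤ 0

variable {d : ℕ} {v : Pt d → ℝ} {O : Set (Pt d)}

theorem Good.cd (h : Good v O) {p : Pt d} (h1 : |p.1| ≤ 1) (h2 : ‖p.2‖ ≤ 1) :
    ContDiffAt ℝ ∞ v p := h.smooth.contDiffAt (h.op.mem_nhds (h.sub p h1 h2))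

theorem Good.der (h : Good v O) {t : ℝ} {y : Y d} (h1 : |t| ≤ 1) (h2 : ‖y‖ ≤ 1) :
    HasDerivAt (fun τ : ℝ => v (τ, y)) (pd 0 v (t, y)) t := by
  have h3 : HasFDerivAt v (fderiv ℝ v (t, y)) (t, y) :=
    ((h.cd (p := (t, y)) h1 h2).differentiableAt (by simp)).hasFDerivAt
  have h4 : HasDerivAt (fun τ : ℝ => ((τ, y) : Pt d)) (1, 0) t :=
    (hasDerivAt_id t).prodMk (hasDerivAt_const t y)
  exact HasFDerivAt.comp_hasDerivAt (l := v) (f := fun τ : ℝ => ((τ, y) : Pt d)) t h3 h4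

theorem Good.anti (h : Good v O) {y : Y d} (hy : ‖y‖ < 1) {s t : ℝ} (hs : -1 ≤ s) (hst : s ≤ t)
    (ht : t ≤ 1) : v (t, y) ≤ v (s, y) := by
  have h1 : AntitoneOn (fun τ : ℝ => v (τ, y)) (Icc (-1) 1) := by
    refine antitoneOn_of_deriv_nonpos (convex_Icc _ _) ?_ ?_ ?_
    · intro τ hτ
      exact (h.der (abs_le.2 hτ) hy.le).continuousAt.continuousWithinAt
    · intro τ hτ
      rw [interior_Icc] at hτ
      exact (h.der (abs_le.2 ⟨hτ.1.le, hτ.2.le⟩) hy.le).differentiableAt.differentiableWithinAt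
    · intro τ hτ
      rw [interior_Icc] at hτ
      have h2 : |τ| ≤ 1 := abs_le.2 ⟨hτ.1.le, hτ.2.le⟩
      rw [(h.der h2 hy.le).deriv]
      exact h.dec (τ, y) h2 hy
  exact h1 ⟨hs, hst.trans ht⟩ ⟨hs.trans hst, ht⟩ hst

theorem Good.pd_zero (h : Good v O) {y : Y d} (hy : ‖y‖ < 1) {s : ℝ} (hs : 0 < s) (hs1 : s ≤ 1)
    (heq : v (s, y) = v (0, y)) : pd 0 v (0, y) = 0 := by
  have h1 := (h.der (t := 0) (by simp) hy.le).hasDerivWithinAt (s := Icc 0 s)
  have h2 : HasDerivWithinAt (fun τ : ℝ => v (τ, y)) 0 (Icc 0 s) 0 := by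
    refine (hasDerivWithinAt_const (0 : ℝ) (Icc 0 s) (v (0, y))).congr (fun τ hτ => ?_) rfl
    refine le_antisymm (h.anti hy (by norm_num) hτ.1 (hτ.2.trans hs1)) ?_
    rw [← heq]
    exact h.anti hy (by linarith [hτ.1]) hτ.2 hs1
  exact ((uniqueDiffOn_Icc hs) 0 (left_mem_Icc.2 hs.le)).eq_deriv _ h1 h2

theorem Good.pd_u (h : Good v O) {p : Pt d} (h1 : |p.1| ≤ 1) (h2 : ‖p.2‖ ≤ 1) :
    pd 0 (uOf v) p = -pd 0 v (-p.1, p.2) + G1 p.1 := by
  have h3 : HasFDerivAt v (fderiv ℝ v (R p)) (R p) := by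
    refine ((h.cd (p := R p) ?_ h2).differentiableAt (by simp)).hasFDerivAt
    show |(-p.1)| ≤ 1
    rwa [abs_neg]
  have h4 : HasFDerivAt (fun q : Pt d => v (-q.1, q.2)) ((fderiv ℝ v (R p)).comp R) p :=
    HasFDerivAt.comp p h3 (R (d := d)).hasFDerivAt
  have h5 : HasFDerivAt (fun q : Pt d => EE q.1)
      (G1 p.1 • ContinuousLinearMap.fst ℝ ℝ (Y d)) p :=
    (hasDerivAt_EE p.1).comp_hasFDerivAt p hasFDerivAt_fst
  have h6 : HasFDerivAt (uOf v) _ p := h4.add h5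
  have h7 : (R (cvec 0 : Pt d)) = -(cvec 0 : Pt d) := by
    have h8 : (cvec 0 : Pt d) = (1, 0) := rfl
    rw [h8, R_apply]
    simp
  rw [pd, h6.fderiv]
  show fderiv ℝ v (R p) (R (cvec 0)) + G1 p.1 • (cvec 0 : Pt d).1 = _
  rw [h7, map_neg]
  have h9 : ((cvec 0 : Pt d)).1 = 1 := rfl
  rw [h9, smul_eq_mul, mul_one]
  rfl

theorem EE_zero : EE 0 = 0 := EE_nonpos le_rfl

theorem glue_uOf (p : Pt d) : glue (uOf v) v p = v p + EE (-p.1) := by
  rw [glue]
  split_ifs with h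
  · rw [EE_nonpos (by linarith), add_zero]
  · simp only [uOf, neg_neg]

theorem Good.lt (h : Good v O) {p : Pt d} (hp : p ∈ Omega d) : v p < uOf v p := by
  have h1 := h.anti hp.2.2 (s := -p.1) (t := p.1) (by linarith [hp.2.1]) (by linarith [hp.1])
    hp.2.1.le
  have h2 := EE_pos hp.1
  show v (p.1, p.2) < v (-p.1, p.2) + EE p.1
  linarith

theorem Good.sigma_u (h : Good v O) {y : Y d} (hy : ‖y‖ < 1) (h0 : pd 0 v (0, y) = 0) (m : ℕ) :
    sigma m (uOf v) (0, y) = sigma m v (0, y) := by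
  have hcd : ContDiffAt ℝ 2 v (0, y) :=
    (h.cd (p := (0, y)) (by simp) hy.le).of_le (by norm_cast)
  have hmax : ∀ᶠ p in 𝓝 ((0, y) : Pt d), pd 0 v p ≤ 0 := by
    have ho : IsOpen (Cyl d) :=
      (isOpen_lt (continuous_fst.abs) continuous_const).inter
        (isOpen_lt (continuous_snd.norm) continuous_const)
    filter_upwards [ho.mem_nhds (show ((0, y) : Pt d) ∈ Cyl d from ⟨by simp, hy⟩)] with p hp
    exact h.dec p hp.1.le hp.2
  have h1 := (jet0_refl hcd rfl hmax h0).add (jet0_EE (p := ((0, y) : Pt d)) rfl)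
  have h2 := sigma_add_jet0 hcd h1 m
  have h3 : (fun q : Pt d => v q + (v (-q.1, q.2) - v q + EE q.1)) = uOf v := by
    funext q
    simp only [uOf]
    ring
  rw [h3] at h2
  exact h2

theorem Good.hyp (h : Good v O) (m : ℕ)
    (hm : ∀ (s : ℝ) (y : Y d), 0 < s → s < 1 → ‖y‖ < 1 → v (s, y) = v (0, y) →
      sigma m v (0, y) ≤ sigma m v (s, y)) : Hyp d m (uOf v) v where
  smooth_u := by
    refine ⟨(R : Pt d → Pt d) ⁻¹' O, h.op.preimage (R (d := d)).continuous, ?_, ?_⟩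
    · intro p hp
      have h1 := closure_Omega hp
      refine h.sub (R p) ?_ h1.2.2
      show |(-p.1)| ≤ 1
      rw [abs_neg, abs_of_nonneg h1.1]
      exact h1.2.1
    · have h1 : ContDiffOn ℝ ∞ (v ∘ (R : Pt d → Pt d)) ((R : Pt d → Pt d) ⁻¹' O) :=
        h.smooth.comp (R (d := d)).contDiff.contDiffOn (fun _ hp => hp)
      exact h1.add (EE_smooth.comp contDiff_fst).contDiffOn
  smooth_v := by
    refine ⟨O, h.op, fun p hp => ?_, h.smooth⟩
    have h1 := closure_Omega hp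
    exact h.sub p (by rw [abs_of_nonneg h1.1]; exact h1.2.1) h1.2.2
  le := fun p hp => (h.lt hp).le
  nonneg := h.nn
  boundary := by
    intro y _
    simp only [uOf, neg_zero, EE_zero, add_zero]
  u_zero := by simp only [uOf, neg_zero, EE_zero, add_zero, h.z]
  v_zero := h.z
  dt_zero := by
    rw [h.pd_u (p := (0, 0)) (by simp) (by simp)]
    have h1 : v ((1 / 2 : ℝ), (0 : Y d)) = v (0, 0) := by
      refine le_antisymm (h.anti (by simp) (by norm_num) (by norm_num) (by norm_num)) ?_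
      rw [h.z]
      exact h.nn _ ⟨by norm_num, by norm_num, by simp⟩
    have h2 := h.pd_zero (y := (0 : Y d)) (by simp) (by norm_num : (0 : ℝ) < 1 / 2)
      (by norm_num) h1
    simp only [neg_zero, h2, G1_nonpos le_rfl, add_zero]
  dt_pos := by
    intro p hp
    have h1 : |p.1| ≤ 1 := by rw [abs_of_pos hp.1]; exact hp.2.1.le
    rw [h.pd_u h1 hp.2.2.le]
    have h2 := h.dec (-p.1, p.2) (by show |(-p.1)| ≤ 1; rwa [abs_neg]) hp.2.2
    have h3 := G1_pos hp.1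
    linarith
  comparison := by
    intro t s y ht ht1 hs hs1 hy heq
    have h1 : v (-t, y) + EE t = v (s, y) := heq
    have h2 := h.anti hy (s := -t) (t := s) (by linarith) (by linarith) hs1.le
    have ht0 : t = 0 := by
      rcases ht.eq_or_lt with h3 | h3
      · exact h3.symm
      · have := EE_pos h3
        linarith
    subst ht0
    rw [EE_zero, add_zero, neg_zero] at h1
    rw [h.sigma_u hy (h.pd_zero hy hs hs1.le h1.symm) m]
    exact hm s y hs hs1 hy h1.symm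
  gluing := by
    have h1 : glue (uOf v) v = fun p => v p + EE (-p.1) := funext glue_uOf
    rw [h1]
    refine ContDiffOn.add (h.smooth.mono fun p hp => h.sub p hp.1.le hp.2.le) ?_
    exact (EE_smooth.comp contDiff_fst.neg).contDiffOn

theorem Good.ne (h : Good v O) : ¬ ∀ᶠ p in 𝓝[closure (Omega d)] (0 : Pt d), uOf v p = v p := by
  intro h0
  have h1 : Tendsto (fun t : ℝ => ((t, 0) : Pt d)) (𝓝[>] 0) (𝓝[closure (Omega d)] 0) := by
    refine tendsto_nhdsWithin_iff.2 ⟨?_, ?_⟩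
    · have : Tendsto (fun t : ℝ => ((t, 0) : Pt d)) (𝓝 0) (𝓝 (0, 0)) :=
        Continuous.tendsto (by fun_prop) 0
      exact this.mono_left nhdsWithin_le_nhds
    · filter_upwards [Ioo_mem_nhdsGT (zero_lt_one' ℝ)] with t ht
      exact subset_closure ⟨ht.1, ht.2, by simp⟩
  obtain ⟨t, ht1, ht2⟩ := ((h1.eventually h0).and (Ioo_mem_nhdsGT (zero_lt_one' ℝ))).exists
  exact (h.lt (p := (t, 0)) ⟨ht2.1, ht2.2, by simp⟩).ne' ht1

theorem convex_glue' (hv : ConvexOn ℝ (Cyl d) v) : ConvexOn ℝ (Cyl d) (glue (uOf v) v) := by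
  have h1 : ConvexOn ℝ (Cyl d) (fun p : Pt d => EE (-p.1)) := by
    have h2 := EE_convex.comp_linearMap (-(LinearMap.fst ℝ ℝ (Y d)))
    rw [preimage_univ] at h2
    exact h2.subset (subset_univ _) hv.1
  have h3 := hv.add h1
  have h4 : glue (uOf v) v = v + fun p : Pt d => EE (-p.1) := by
    funext p; exact glue_uOf p
  rw [h4]
  exact h3

theorem edge_mem {y : Y d} (hy : ‖y‖ < 1) : ((0, y) : Pt d) ∈ closure (Omega d) := by
  have h1 : Tendsto (fun t : ℝ => ((t, y) : Pt d)) (𝓝[>] 0) (𝓝 (0, y)) := by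
    have : Tendsto (fun t : ℝ => ((t, y) : Pt d)) (𝓝 0) (𝓝 (0, y)) :=
      Continuous.tendsto (by fun_prop) 0
    exact this.mono_left nhdsWithin_le_nhds
  refine mem_closure_of_tendsto h1 ?_
  filter_upwards [Ioo_mem_nhdsGT (zero_lt_one' ℝ)] with t ht
  exact ⟨ht.1, ht.2, hy⟩

/-- (1) Let `v` be a function which is smooth on a neighbourhood of `{|t| ≤ 1, |y| ≤ 1}`, with
`v ≥ 0` on `Ω`, `v(0,0) = 0` and `∂v/∂t ≤ 0`. There is a function `u > v` on `Ω` such that `u, v`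
satisfy all hypotheses of the problem for every `m` with the following property: `σ_m` of the graph
of `v` at `(0,y)` is at most its value at `(s,y)` whenever `v(s,y) = v(0,y)`, `0 < s < 1`. The
glued function is convex if `v` is convex.

(2) Every function `a ≥ 0` with `a(0) = 0`, smooth on a neighbourhood of the closed unit ball and
not identically zero near the origin, is the common trace `u(0,y) = v(0,y)` of a pair `u, v` which
satisfies all the hypotheses of the problem for all `m`, but neither `u ≡ v` nor `v ≡ 0` near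
`(0,0)`; even `u > v` on `Ω`, and the glued function is convex if `a` is. -/
theorem result (d : ℕ) :
    (∀ v : Pt d → ℝ, (∃ O : Set (Pt d), IsOpen O ∧
        (∀ p : Pt d, |p.1| ≤ 1 → ‖p.2‖ ≤ 1 → p ∈ O) ∧ ContDiffOn ℝ ∞ v O) →
      (∀ p ∈ Omega d, 0 ≤ v p) → v (0, 0) = 0 →
      (∀ p : Pt d, |p.1| ≤ 1 → ‖p.2‖ < 1 → pd 0 v p ≤ 0) →
      ∃ u : Pt d → ℝ,
        (∀ m : ℕ, (∀ (s : ℝ) (y : Y d), 0 < s → s < 1 → ‖y‖ < 1 → v (s, y) = v (0, y) →
          sigma m v (0, y) ≤ sigma m v (s, y)) → Hyp d m u v) ∧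
        (∀ p ∈ Omega d, v p < u p) ∧
        (¬ ∀ᶠ p in 𝓝[closure (Omega d)] (0 : Pt d), u p = v p) ∧
        (ConvexOn ℝ (Cyl d) v → ConvexOn ℝ (Cyl d) (glue u v))) ∧
    (∀ a : Y d → ℝ, (∃ O : Set (Y d), IsOpen O ∧ (∀ y, ‖y‖ ≤ 1 → y ∈ O) ∧ ContDiffOn ℝ ∞ a O) →
      (∀ y, ‖y‖ < 1 → 0 ≤ a y) → a 0 = 0 → (¬ ∀ᶠ y in 𝓝 0, a y = 0) →
      ∃ u v : Pt d → ℝ, (∀ m : ℕ, Hyp d m u v) ∧
        (∀ y, u (0, y) = a y ∧ v (0, y) = a y) ∧
        (∀ p ∈ Omega d, v p < u p) ∧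
        (¬ ∀ᶠ p in 𝓝[closure (Omega d)] (0 : Pt d), u p = v p) ∧
        (¬ ∀ᶠ p in 𝓝[closure (Omega d)] (0 : Pt d), v p = 0) ∧
        (ConvexOn ℝ {y | ‖y‖ < 1} a → ConvexOn ℝ (Cyl d) (glue u v))) := by
  have main : ∀ v : Pt d → ℝ, (∃ O : Set (Pt d), IsOpen O ∧
        (∀ p : Pt d, |p.1| ≤ 1 → ‖p.2‖ ≤ 1 → p ∈ O) ∧ ContDiffOn ℝ ∞ v O) →
      (∀ p ∈ Omega d, 0 ≤ v p) → v (0, 0) = 0 →
      (∀ p : Pt d, |p.1| ≤ 1 → ‖p.2‖ < 1 → pd 0 v p ≤ 0) →
        (∀ m : ℕ, (∀ (s : ℝ) (y : Y d), 0 < s → s < 1 → ‖y‖ < 1 → v (s, y) = v (0, y) →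
          sigma m v (0, y) ≤ sigma m v (s, y)) → Hyp d m (uOf v) v) ∧
        (∀ p ∈ Omega d, v p < uOf v p) ∧
        (¬ ∀ᶠ p in 𝓝[closure (Omega d)] (0 : Pt d), uOf v p = v p) ∧
        (ConvexOn ℝ (Cyl d) v → ConvexOn ℝ (Cyl d) (glue (uOf v) v)) := by
    rintro v ⟨O, hO, hsub, hsm⟩ hnn h0 hdec
    have h : Good v O := ⟨hO, hsub, hsm, hnn, h0, hdec⟩
    exact ⟨h.hyp, fun p hp => h.lt hp, h.ne, convex_glue'⟩
  refine ⟨fun v h1 h2 h3 h4 => ⟨uOf v, main v h1 h2 h3 h4⟩, ?_⟩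
  rintro a ⟨O, hO, hsub, hsm⟩ hnn h0 hne
  have htr : ∀ (c : ℝ) (x : Pt d), (fun p : Pt d => a p.2) (x + (c, 0)) =
      (fun p : Pt d => a p.2) x := by
    intro c x
    show a (x.2 + 0) = a x.2
    rw [add_zero]
  have hpd : ∀ p : Pt d, pd 0 (fun p : Pt d => a p.2) p = 0 := by
    intro p
    by_cases hd : DifferentiableAt ℝ (fun p : Pt d => a p.2) p
    · have h3 : HasDerivAt (fun τ : ℝ => ((p.1 + τ, p.2) : Pt d)) (1, 0) 0 :=
        ((hasDerivAt_id (0 : ℝ)).const_add p.1).prodMk (hasDerivAt_const (0 : ℝ) p.2)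
      have h4 : HasFDerivAt (fun p : Pt d => a p.2) (fderiv ℝ (fun p : Pt d => a p.2) p)
          ((p.1 + 0, p.2) : Pt d) := by
        have h5 : ((p.1 + 0, p.2) : Pt d) = p := by
          ext <;> simp
        rw [h5]
        exact hd.hasFDerivAt
      have h5 : HasDerivAt (fun _ : ℝ => a p.2) (fderiv ℝ (fun p : Pt d => a p.2) p (1, 0)) 0 :=
        HasFDerivAt.comp_hasDerivAt (l := fun p : Pt d => a p.2)
          (f := fun τ : ℝ => ((p.1 + τ, p.2) : Pt d)) 0 h4 h3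
      exact h5.unique (hasDerivAt_const (0 : ℝ) (a p.2))
    · rw [pd, fderiv_zero_of_not_differentiableAt hd]
      rfl
  obtain ⟨k1, k2, k3, k4⟩ := main (fun p : Pt d => a p.2)
    ⟨Prod.snd ⁻¹' O, hO.preimage continuous_snd, fun p _ hp => hsub p.2 hp,
      hsm.comp contDiff_snd.contDiffOn (fun _ hp => hp)⟩
    (fun p hp => hnn p.2 hp.2.2) h0 (fun p _ _ => (hpd p).le)
  refine ⟨uOf (fun p : Pt d => a p.2), fun p : Pt d => a p.2, fun m => k1 m ?_, ?_, k2, k3, ?_, ?_⟩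
  · intro s y _ _ _ _
    have h5 := sigma_trans (f := fun p : Pt d => a p.2) (c := ((s, 0) : Pt d)) (htr s) m
      ((0, y) : Pt d)
    have h6 : ((0, y) : Pt d) + (s, 0) = (s, y) := by
      ext <;> simp
    rw [h6] at h5
    exact h5.ge
  · intro y
    refine ⟨?_, rfl⟩
    simp only [uOf, EE_zero, add_zero]
  · intro h5
    apply hne
    have h6 : Tendsto (fun y : Y d => ((0, y) : Pt d)) (𝓝 0) (𝓝[closure (Omega d)] 0) := by
      refine tendsto_nhdsWithin_iff.2 ⟨?_, ?_⟩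
      · exact Continuous.tendsto (f := fun y : Y d => ((0, y) : Pt d)) (by fun_prop) 0
      · filter_upwards [Metric.ball_mem_nhds (0 : Y d) one_pos] with y hy
        exact edge_mem (by simpa using hy)
    exact h6.eventually h5
  · intro hc
    refine k4 ?_
    have hcyl : Convex ℝ (Cyl d) := (convex_vv (d := d)).1
    refine ⟨hcyl, fun p hp q hq α β hα hβ hab => ?_⟩
    exact hc.2 hp.2 hq.2 hα hβ hab

end Pool.Agent.Results.MP_4ba699_an.EveryTrace
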